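import Pool.Agent.Helper28.T3.StB

/-!
# Project T3, MODULE WA: unimodality in `a`
-/

set_option autoImplicit false

namespace Pool.Agent.Helper32.T3

open Pool.Agent.Helper28.T3

theorem hWA : StWA := by
  intro X m hX hm hXm
  have h1 : ∀ a : ℝ, 0 < a → Wf X a m =
      Real.sqrt (4 * m ^ 3 - 3 * m ^ 2 * a ^ 2) - Real.sqrt (4 * m ^ 3 - X * a ^ 2) := by
    intro a _
    unfold Wf
    have e1 : 4 * m ^ 3 - 3 * a ^ 2 * m ^ 2 = 4 * m ^ 3 - 3 * m ^ 2 * a ^ 2 := by ring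
    have e2 : 4 * m ^ 3 - a ^ 2 * X = 4 * m ^ 3 - X * a ^ 2 := by ring
    rw [e1, e2]
    apply max_eq_right
    rw [sub_nonneg]
    apply Real.sqrt_le_sqrt
    have h := mul_le_mul_of_nonneg_right hXm (sq_nonneg a)
    linarith
  have hP : 0 < 4 * m ^ 3 := by positivity
  have hPX : 0 < 4 * m ^ 3 / X := div_pos hP hX
  refine ⟨h1, ?_, ?_⟩
  · intro a ha b hb hab
    simp only [Set.mem_Iic] at ha hb
    by_cases ha0 : 0 < a
    · have hb0 : 0 < b := lt_of_lt_of_le ha0 hab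
      simp only [if_pos ha0, if_pos hb0]
      rw [h1 a ha0, h1 b hb0]
      have hb2 : b ^ 2 ≤ 4 * m ^ 3 / X := by
        have h := pow_le_pow_left₀ hb0.le hb 2
        rwa [Real.sq_sqrt hPX.le] at h
      have hXb : b ^ 2 * X ≤ 4 * m ^ 3 := (le_div_iff₀ hX).mp hb2
      have hab2 : a ^ 2 ≤ b ^ 2 := pow_le_pow_left₀ ha0.le hab 2
      have hXab : X * a ^ 2 ≤ X * b ^ 2 := mul_le_mul_of_nonneg_left hab2 hX.le
      have hQa : 3 * m ^ 2 * a ^ 2 ≤ X * a ^ 2 := mul_le_mul_of_nonneg_right hXm (sq_nonneg a)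
      have hQb : 3 * m ^ 2 * b ^ 2 ≤ X * b ^ 2 := mul_le_mul_of_nonneg_right hXm (sq_nonneg b)
      have hQab : 3 * m ^ 2 * a ^ 2 ≤ 3 * m ^ 2 * b ^ 2 :=
        mul_le_mul_of_nonneg_left hab2 (by positivity)
      have sua : Real.sqrt (4 * m ^ 3 - 3 * m ^ 2 * a ^ 2) ^ 2 = 4 * m ^ 3 - 3 * m ^ 2 * a ^ 2 :=
        Real.sq_sqrt (by linarith)
      have sva : Real.sqrt (4 * m ^ 3 - X * a ^ 2) ^ 2 = 4 * m ^ 3 - X * a ^ 2 :=
        Real.sq_sqrt (by linarith)
      have sub : Real.sqrt (4 * m ^ 3 - 3 * m ^ 2 * b ^ 2) ^ 2 = 4 * m ^ 3 - 3 * m ^ 2 * b ^ 2 :=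
        Real.sq_sqrt (by linarith)
      have svb : Real.sqrt (4 * m ^ 3 - X * b ^ 2) ^ 2 = 4 * m ^ 3 - X * b ^ 2 :=
        Real.sq_sqrt (by linarith)
      have lu : Real.sqrt (4 * m ^ 3 - 3 * m ^ 2 * b ^ 2) ≤
          Real.sqrt (4 * m ^ 3 - 3 * m ^ 2 * a ^ 2) := Real.sqrt_le_sqrt (by linarith)
      have lv : Real.sqrt (4 * m ^ 3 - X * b ^ 2) ≤ Real.sqrt (4 * m ^ 3 - X * a ^ 2) :=
        Real.sqrt_le_sqrt (by linarith)
      have la : Real.sqrt (4 * m ^ 3 - X * a ^ 2) ≤ Real.sqrt (4 * m ^ 3 - 3 * m ^ 2 * a ^ 2) :=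
        Real.sqrt_le_sqrt (by linarith)
      have lb : Real.sqrt (4 * m ^ 3 - X * b ^ 2) ≤ Real.sqrt (4 * m ^ 3 - 3 * m ^ 2 * b ^ 2) :=
        Real.sqrt_le_sqrt (by linarith)
      have nva := Real.sqrt_nonneg (4 * m ^ 3 - X * a ^ 2)
      have nvb := Real.sqrt_nonneg (4 * m ^ 3 - X * b ^ 2)
      generalize Real.sqrt (4 * m ^ 3 - 3 * m ^ 2 * a ^ 2) = ua at sua lu la ⊢
      generalize Real.sqrt (4 * m ^ 3 - X * a ^ 2) = va at sva lv la nva ⊢
      generalize Real.sqrt (4 * m ^ 3 - 3 * m ^ 2 * b ^ 2) = ub at sub lu lb ⊢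
      generalize Real.sqrt (4 * m ^ 3 - X * b ^ 2) = vb at svb lv lb nvb ⊢
      have pa : 0 < a ^ 2 := by positivity
      have pb : 0 < b ^ 2 := by positivity
      rw [div_le_div_iff₀ pa pb]
      have da : (ua - va) * (ua + va) = (X - 3 * m ^ 2) * a ^ 2 := by
        linear_combination sua - sva
      have db : (ub - vb) * (ub + vb) = (X - 3 * m ^ 2) * b ^ 2 := by
        linear_combination sub - svb
      rcases eq_or_lt_of_le hXm with hc | hc
      · rw [← hc, sub_self, zero_mul] at da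
        have hz : ua - va = 0 := by
          rcases mul_eq_zero.mp da with h | h
          · exact h
          · have : va = 0 := by linarith
            have : ua = 0 := by linarith
            linarith
        rw [hz, zero_mul]
        exact mul_nonneg (by linarith) pa.le
      · have hc' : 0 < X - 3 * m ^ 2 := by linarith
        refine le_of_mul_le_mul_right ?_ hc'
        have e1 : (ua - va) * b ^ 2 * (X - 3 * m ^ 2) = (ua - va) * ((ub - vb) * (ub + vb)) := by
          rw [db]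
          ring
        have e2 : (ub - vb) * a ^ 2 * (X - 3 * m ^ 2) = (ua - va) * ((ub - vb) * (ua + va)) := by
          linear_combination (-(ub - vb)) * da
        rw [e1, e2]
        refine mul_le_mul_of_nonneg_left ?_ (by linarith)
        exact mul_le_mul_of_nonneg_left (by linarith) (by linarith)
    · simp only [if_neg ha0]
      by_cases hb0 : 0 < b
      · rw [if_pos hb0]
        have h2 : 0 ≤ Wf X b m := by
          unfold Wf
          exact le_max_left _ _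
        positivity
      · rw [if_neg hb0]
  · intro a ha b hb hab
    simp only [Set.mem_Ici] at ha hb
    have hs : 0 < Real.sqrt (4 * m ^ 3 / X) := Real.sqrt_pos.mpr hPX
    have ha0 : 0 < a := lt_of_lt_of_le hs ha
    have hb0 : 0 < b := lt_of_lt_of_le ha0 hab
    simp only [if_pos ha0, if_pos hb0]
    rw [h1 a ha0, h1 b hb0]
    have key : ∀ t, Real.sqrt (4 * m ^ 3 / X) ≤ t → Real.sqrt (4 * m ^ 3 - X * t ^ 2) = 0 := by
      intro t ht
      apply Real.sqrt_eq_zero_of_nonpos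
      have h := pow_le_pow_left₀ hs.le ht 2
      rw [Real.sq_sqrt hPX.le, div_le_iff₀ hX] at h
      linarith
    rw [key a ha, key b hb, sub_zero, sub_zero]
    have hab2 : a ^ 2 ≤ b ^ 2 := pow_le_pow_left₀ ha0.le hab 2
    have hQab : 3 * m ^ 2 * a ^ 2 ≤ 3 * m ^ 2 * b ^ 2 :=
      mul_le_mul_of_nonneg_left hab2 (by positivity)
    exact div_le_div₀ (Real.sqrt_nonneg _) (Real.sqrt_le_sqrt (by linarith)) (by positivity) hab2

end Pool.Agent.Helper32.T3
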